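import Pool.Agent.Helper14.CV.StC

/-!
# Project CV, module DimF: the dimension of `antiF`

The maps `x ↦ -x - 1`, `x ↦ -x/(1+2x)` commute; the first one changes the parity, the second one
does not. So a function in `antiF` is determined by its values at the pairs of even residues,
and these are the symmetric functions which are antiperiodic in both variables.
-/

set_option autoImplicit false

namespace Pool.Agent.Helper90.CV

open Pool.Agent.Helper14.CV

/-- `x ↦ -x - 1` -/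
private def al {M : ℕ} (x : ZMod M) : ZMod M := -x - 1

/-- `x ↦ -x/(1+2x)` -/
private def be {M : ℕ} (x : ZMod M) : ZMod M := -x * (1 + 2 * x)⁻¹

private theorem un (k : ℕ) (x : ZMod (2 ^ k)) : IsUnit (1 + 2 * x) := by
  have h : IsNilpotent (2 * x) := by
    refine ⟨k, ?_⟩
    have h2 : (2 : ZMod (2 ^ k)) ^ k = 0 := by
      exact_mod_cast ZMod.natCast_self (2 ^ k)
    rw [mul_pow, h2, zero_mul]
  exact h.isUnit_one_add

private theorem muw (k : ℕ) (x : ZMod (2 ^ k)) : (1 + 2 * x) * (1 + 2 * x)⁻¹ = 1 :=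
  ZMod.mul_inv_of_unit _ (un k x)

private theorem al_al {M : ℕ} (x : ZMod M) : al (al x) = x := by
  unfold al; ring

private theorem be_be {k : ℕ} (x : ZMod (2 ^ k)) : be (be x) = x := by
  have h := muw k x
  unfold be
  set w := (1 + 2 * x)⁻¹ with hw
  have h1 : 1 + 2 * (-x * w) = w := by linear_combination (-1 : ZMod (2 ^ k)) * h
  rw [h1]
  have hwu : IsUnit w := IsUnit.of_mul_eq_one (1 + 2 * x) (by rw [mul_comm]; exact h)
  have h2 : w * w⁻¹ = 1 := ZMod.mul_inv_of_unit _ hwu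
  linear_combination x * h2

private theorem al_be {k : ℕ} (x : ZMod (2 ^ k)) : be (al x) = al (be x) := by
  have h := muw k x
  have h' := muw k (al x)
  unfold be
  unfold al at *
  set w := (1 + 2 * x)⁻¹ with hw
  set z := (1 + 2 * (-x - 1))⁻¹ with hz
  have h1 : z = -w := by
    linear_combination (-w) * h' - z * h
  rw [h1]
  linear_combination (-1 : ZMod (2 ^ k)) * h

private theorem al_h {M : ℕ} (h x : ZMod M) (hh : 2 * h = 0) : al (x + h) = al x + h := by
  unfold al; linear_combination (-1 : ZMod M) * hh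

private theorem be_h {k : ℕ} (h x : ZMod (2 ^ k)) (hh : 2 * h = 0) : be (x + h) = be x + h := by
  have h1 := muw k x
  unfold be
  have h2 : 1 + 2 * (x + h) = 1 + 2 * x := by linear_combination hh
  rw [h2]
  set w := (1 + 2 * x)⁻¹ with hw
  linear_combination (-h) * h1 + (x * w - 1) * hh

/-! ### parity -/

/-- reduction modulo two of the value -/
private theorem par (n : ℕ) (x : ZMod (2 ^ (n + 2))) :
    ZMod.castHom (Dvd.intro_left (2 ^ (n + 1)) (by ring) : 2 ∣ 2 ^ (n + 2)) (ZMod 2) x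
      = ((x.val : ℕ) : ZMod 2) := by
  conv_lhs => rw [← ZMod.natCast_zmod_val x]
  rw [map_natCast]

private theorem even_iff (n : ℕ) (x : ZMod (2 ^ (n + 2))) :
    ZMod.castHom (Dvd.intro_left (2 ^ (n + 1)) (by ring) : 2 ∣ 2 ^ (n + 2)) (ZMod 2) x = 0 ↔
      x.val % 2 = 0 := by
  rw [par, ZMod.natCast_eq_zero_iff]
  omega

private theorem al_par (n : ℕ) (x : ZMod (2 ^ (n + 2))) :
    (al x).val % 2 = 0 ↔ ¬ x.val % 2 = 0 := by
  rw [← even_iff, ← even_iff]
  have h : ZMod.castHom (Dvd.intro_left (2 ^ (n + 1)) (by ring) : 2 ∣ 2 ^ (n + 2)) (ZMod 2) (al x)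
      = - ZMod.castHom (Dvd.intro_left (2 ^ (n + 1)) (by ring) : 2 ∣ 2 ^ (n + 2)) (ZMod 2) x - 1 := by
    unfold al
    rw [map_sub, map_neg, map_one]
  rw [h]
  generalize ZMod.castHom (Dvd.intro_left (2 ^ (n + 1)) (by ring) : 2 ∣ 2 ^ (n + 2)) (ZMod 2) x = t
  revert t
  decide

private theorem be_par (n : ℕ) (x : ZMod (2 ^ (n + 2))) :
    (be x).val % 2 = 0 ↔ x.val % 2 = 0 := by
  rw [← even_iff, ← even_iff]
  have h1 := congrArg (ZMod.castHom (Dvd.intro_left (2 ^ (n + 1)) (by ring) : 2 ∣ 2 ^ (n + 2))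
    (ZMod 2)) (muw (n + 2) x)
  have h : ZMod.castHom (Dvd.intro_left (2 ^ (n + 1)) (by ring) : 2 ∣ 2 ^ (n + 2)) (ZMod 2) (be x)
      = - ZMod.castHom (Dvd.intro_left (2 ^ (n + 1)) (by ring) : 2 ∣ 2 ^ (n + 2)) (ZMod 2) x *
        ZMod.castHom (Dvd.intro_left (2 ^ (n + 1)) (by ring) : 2 ∣ 2 ^ (n + 2)) (ZMod 2)
          ((1 + 2 * x)⁻¹) := by
    unfold be
    rw [map_mul, map_neg]
  rw [map_mul, map_add, map_mul, map_one, map_ofNat] at h1
  rw [h]
  generalize ZMod.castHom (Dvd.intro_left (2 ^ (n + 1)) (by ring) : 2 ∣ 2 ^ (n + 2)) (ZMod 2) x = t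
    at h1 ⊢
  generalize ZMod.castHom (Dvd.intro_left (2 ^ (n + 1)) (by ring) : 2 ∣ 2 ^ (n + 2)) (ZMod 2)
    ((1 + 2 * x)⁻¹) = w at h1 ⊢
  revert t w
  decide

/-! ### the function on pairs of even residues -/

/-- half a period -/
private def hh (n : ℕ) : ZMod (2 ^ (n + 2)) := 2 ^ (n + 1)

private theorem two_hh (n : ℕ) : 2 * hh n = 0 := by
  unfold hh
  have h2 : (2 : ZMod (2 ^ (n + 2))) ^ (n + 2) = 0 := by
    exact_mod_cast ZMod.natCast_self (2 ^ (n + 2))
  rw [← h2]; ring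

private theorem hh_val (n : ℕ) : (hh n).val = 2 ^ (n + 1) := by
  have h : hh n = ((2 ^ (n + 1) : ℕ) : ZMod (2 ^ (n + 2))) := by
    unfold hh; push_cast; rfl
  rw [h, ZMod.val_natCast, Nat.mod_eq_of_lt]
  exact Nat.pow_lt_pow_right (by norm_num) (by omega)

private theorem val_add_hh (n : ℕ) (x : ZMod (2 ^ (n + 2))) :
    (x + hh n).val = if x.val < 2 * 2 ^ n then x.val + 2 * 2 ^ n else x.val - 2 * 2 ^ n := by
  have hx : x.val < 4 * 2 ^ n := by
    have := ZMod.val_lt x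
    calc x.val < 2 ^ (n + 2) := this
      _ = 4 * 2 ^ n := by ring
  have h1 : 2 ^ (n + 1) = 2 * 2 ^ n := by ring
  have h2 : 2 ^ (n + 2) = 4 * 2 ^ n := by ring
  rw [ZMod.val_add, hh_val]
  rw [h1]
  have h3 : (x.val + 2 * 2 ^ n) % 2 ^ (n + 2) = (x.val + 2 * 2 ^ n) % (4 * 2 ^ n) :=
    congrArg (fun m => (x.val + 2 * 2 ^ n) % m) h2
  rw [h3]
  generalize x.val = t at hx ⊢
  generalize 2 ^ n = a at hx ⊢
  split_ifs with h
  · rw [Nat.mod_eq_of_lt (by omega)]
  · have : t + 2 * a = (t - 2 * a) + 4 * a := by omega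
    rw [this, Nat.add_mod_right, Nat.mod_eq_of_lt (by omega)]

/-- the sign -/
private noncomputable def cc (n : ℕ) (x : ZMod (2 ^ (n + 2))) : ℂ :=
  if x.val % 2 = 0 then (if x.val < 2 * 2 ^ n then 1 else -1) else 0

/-- the index -/
private def ix (n : ℕ) (x : ZMod (2 ^ (n + 2))) : Fin (2 ^ n) :=
  ⟨(x.val / 2) % 2 ^ n, Nat.mod_lt _ (by positivity)⟩

private theorem cc_h (n : ℕ) (x : ZMod (2 ^ (n + 2))) : cc n (x + hh n) = - cc n x := by
  unfold cc
  rw [val_add_hh]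
  have hx : x.val < 4 * 2 ^ n := by
    have := ZMod.val_lt x
    calc x.val < 2 ^ (n + 2) := this
      _ = 4 * 2 ^ n := by ring
  generalize x.val = t at hx ⊢
  generalize 2 ^ n = a at hx ⊢
  by_cases h : t < 2 * a
  · rw [if_pos h]
    by_cases h2 : t % 2 = 0
    · rw [if_pos (by omega : (t + 2 * a) % 2 = 0), if_neg (by omega : ¬ t + 2 * a < 2 * a),
        if_pos h2, if_pos h]
    · rw [if_neg (by omega : ¬ (t + 2 * a) % 2 = 0), if_neg h2, neg_zero]
  · rw [if_neg h]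
    by_cases h2 : t % 2 = 0
    · rw [if_pos (by omega : (t - 2 * a) % 2 = 0), if_pos (by omega : t - 2 * a < 2 * a),
        if_pos h2, if_neg h, neg_neg]
    · rw [if_neg (by omega : ¬ (t - 2 * a) % 2 = 0), if_neg h2, neg_zero]

private theorem ix_h (n : ℕ) (x : ZMod (2 ^ (n + 2))) : ix n (x + hh n) = ix n x := by
  unfold ix
  apply Fin.ext
  show ((x + hh n).val / 2) % 2 ^ n = (x.val / 2) % 2 ^ n
  rw [val_add_hh]
  generalize x.val = t
  generalize 2 ^ n = a
  by_cases h : t < 2 * a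
  · rw [if_pos h]
    have : (t + 2 * a) / 2 = t / 2 + a := by omega
    rw [this, Nat.add_mod_right]
  · rw [if_neg h]
    have : t / 2 = (t - 2 * a) / 2 + a := by omega
    rw [this, Nat.add_mod_right]

/-- the even residue with index `i` -/
private def ev2 (n : ℕ) (i : Fin (2 ^ n)) : ZMod (2 ^ (n + 2)) := ((2 * (i : ℕ) : ℕ) : ZMod _)

private theorem ev2_val (n : ℕ) (i : Fin (2 ^ n)) : (ev2 n i).val = 2 * (i : ℕ) := by
  unfold ev2
  rw [ZMod.val_natCast, Nat.mod_eq_of_lt]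
  have := i.2
  calc 2 * (i : ℕ) < 4 * 2 ^ n := by omega
    _ = 2 ^ (n + 2) := by ring

private theorem cc_ev2 (n : ℕ) (i : Fin (2 ^ n)) : cc n (ev2 n i) = 1 := by
  unfold cc
  rw [ev2_val, if_pos (by omega), if_pos (by have := i.2; omega)]

private theorem ix_ev2 (n : ℕ) (i : Fin (2 ^ n)) : ix n (ev2 n i) = i := by
  unfold ix
  apply Fin.ext
  show ((ev2 n i).val / 2) % 2 ^ n = i
  rw [ev2_val]
  have : 2 * (i : ℕ) / 2 = i := by omega
  rw [this, Nat.mod_eq_of_lt i.2]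

private theorem cc_al (n : ℕ) (x : ZMod (2 ^ (n + 2))) (hx : x.val % 2 = 0) : cc n (al x) = 0 := by
  unfold cc
  rw [if_neg]
  intro h
  exact ((al_par n x).1 h) hx

/-- every even residue is `2 i` or `2 i + h` -/
private theorem even_cases (n : ℕ) (x : ZMod (2 ^ (n + 2))) (hx : x.val % 2 = 0) :
    ∃ i : Fin (2 ^ n), x = ev2 n i ∨ x = ev2 n i + hh n := by
  refine ⟨ix n x, ?_⟩
  have hx4 : x.val < 4 * 2 ^ n := by
    have := ZMod.val_lt x
    calc x.val < 2 ^ (n + 2) := this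
      _ = 4 * 2 ^ n := by ring
  have hi : ((ix n x : Fin (2 ^ n)) : ℕ) = (x.val / 2) % 2 ^ n := rfl
  by_cases h : x.val < 2 * 2 ^ n
  · left
    apply ZMod.val_injective
    rw [ev2_val, hi, Nat.mod_eq_of_lt (by omega)]
    omega
  · right
    apply ZMod.val_injective
    have h3 : (x.val / 2) % 2 ^ n = x.val / 2 - 2 ^ n := by
      have : x.val / 2 = (x.val / 2 - 2 ^ n) + 2 ^ n := by omega
      rw [this, Nat.add_mod_right, Nat.mod_eq_of_lt (by omega)]
      omega
    rw [val_add_hh, ev2_val, hi, h3, if_pos (by omega)]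
    omega

/-- the function on pairs of even residues, zero elsewhere -/
private noncomputable def F0 (n : ℕ) (S : Sym2 (Fin (2 ^ n)) → ℂ) (x y : ZMod (2 ^ (n + 2))) : ℂ :=
  cc n x * cc n y * S s(ix n x, ix n y)

private theorem F0_symm (n : ℕ) (S : Sym2 (Fin (2 ^ n)) → ℂ) (x y : ZMod (2 ^ (n + 2))) :
    F0 n S y x = F0 n S x y := by
  unfold F0
  rw [Sym2.eq_swap, mul_comm (cc n y)]

private theorem F0_h (n : ℕ) (S : Sym2 (Fin (2 ^ n)) → ℂ) (x y : ZMod (2 ^ (n + 2))) :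
    F0 n S (x + hh n) y = - F0 n S x y := by
  unfold F0
  rw [cc_h, ix_h]; ring

private theorem F0_h' (n : ℕ) (S : Sym2 (Fin (2 ^ n)) → ℂ) (x y : ZMod (2 ^ (n + 2))) :
    F0 n S x (y + hh n) = - F0 n S x y := by
  unfold F0
  rw [cc_h, ix_h]; ring

/-- the signed sum over the Klein four group -/
private noncomputable def FF (n : ℕ) (S : Sym2 (Fin (2 ^ n)) → ℂ) :
    ZMod (2 ^ (n + 2)) → ZMod (2 ^ (n + 2)) → ℂ := fun x y =>
  F0 n S x y - F0 n S (al x) (be y) - F0 n S (be x) (al y) + F0 n S (al (be x)) (al (be y))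

private theorem FF_mem (n : ℕ) (S : Sym2 (Fin (2 ^ n)) → ℂ) : FF n S ∈ antiF (n + 2) := by
  intro x y
  have hh2 := two_hh n
  refine ⟨?_, ?_, ?_, ?_⟩
  · show FF n S (x + hh n) y = - FF n S x y
    unfold FF
    rw [be_h _ _ hh2, al_h _ _ hh2, al_h _ _ hh2, F0_h, F0_h, F0_h, F0_h]
    ring
  · show FF n S x (y + hh n) = - FF n S x y
    unfold FF
    rw [be_h _ _ hh2, al_h _ _ hh2, al_h _ _ hh2, F0_h', F0_h', F0_h', F0_h']
    ring
  · show FF n S y x = FF n S x y
    unfold FF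
    rw [F0_symm n S x y, F0_symm n S (be x) (al y), F0_symm n S (al x) (be y),
      F0_symm n S (al (be x)) (al (be y))]
    ring
  · show FF n S (al x) (be y) = - FF n S x y
    unfold FF
    rw [al_al, be_be, al_be x, al_al]
    ring

/-- the restriction to the pairs of even residues -/
private noncomputable def res (n : ℕ) : ↥(antiF (n + 2)) →ₗ[ℂ] (Sym2 (Fin (2 ^ n)) → ℂ) where
  toFun F := fun s => Sym2.lift ⟨fun i j => F.1 (ev2 n i) (ev2 n j), fun i j =>
    (F.2 (ev2 n j) (ev2 n i)).2.2.1⟩ s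
  map_add' F G := by
    funext s
    induction s using Sym2.ind with
    | _ i j => simp
  map_smul' c F := by
    funext s
    induction s using Sym2.ind with
    | _ i j => simp

private theorem res_apply (n : ℕ) (F : ↥(antiF (n + 2))) (i j : Fin (2 ^ n)) :
    res n F s(i, j) = F.1 (ev2 n i) (ev2 n j) := rfl

private theorem res_inj (n : ℕ) : Function.Injective (res n) := by
  rw [← LinearMap.ker_eq_bot, LinearMap.ker_eq_bot']
  intro F hF
  have h1 : ∀ x y, F.1 (x + hh n) y = - F.1 x y := fun x y => (F.2 x y).1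
  have h2 : ∀ x y, F.1 x (y + hh n) = - F.1 x y := fun x y => (F.2 x y).2.1
  have h3 : ∀ x y, F.1 y x = F.1 x y := fun x y => (F.2 x y).2.2.1
  have h4 : ∀ x y, F.1 (al x) (be y) = - F.1 x y := fun x y => (F.2 x y).2.2.2
  have h0 : ∀ i j, F.1 (ev2 n i) (ev2 n j) = 0 := by
    intro i j
    rw [← res_apply, hF]; rfl
  have ee : ∀ x y : ZMod (2 ^ (n + 2)), x.val % 2 = 0 → y.val % 2 = 0 → F.1 x y = 0 := by
    intro x y hx hy
    obtain ⟨i, rfl | rfl⟩ := even_cases n x hx <;> obtain ⟨j, rfl | rfl⟩ := even_cases n y hy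
    · exact h0 i j
    · rw [h2, h0, neg_zero]
    · rw [h1, h0, neg_zero]
    · rw [h1, h2, h0, neg_zero, neg_zero]
  have oe : ∀ x y : ZMod (2 ^ (n + 2)), ¬ x.val % 2 = 0 → y.val % 2 = 0 → F.1 x y = 0 := by
    intro x y hx hy
    have := ee (al x) (be y) ((al_par n x).2 hx) ((be_par n y).2 hy)
    rw [h4] at this
    exact neg_eq_zero.1 this
  have eo : ∀ x y : ZMod (2 ^ (n + 2)), x.val % 2 = 0 → ¬ y.val % 2 = 0 → F.1 x y = 0 := by
    intro x y hx hy
    rw [h3 y x]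
    exact oe y x hy hx
  have oo : ∀ x y : ZMod (2 ^ (n + 2)), ¬ x.val % 2 = 0 → ¬ y.val % 2 = 0 → F.1 x y = 0 := by
    intro x y hx hy
    have := eo (al x) (be y) ((al_par n x).2 hx) (fun h => hy ((be_par n y).1 h))
    rw [h4] at this
    exact neg_eq_zero.1 this
  apply Subtype.ext
  funext x y
  show F.1 x y = 0
  by_cases hx : x.val % 2 = 0 <;> by_cases hy : y.val % 2 = 0
  · exact ee x y hx hy
  · exact eo x y hx hy
  · exact oe x y hx hy
  · exact oo x y hx hy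

private theorem res_surj (n : ℕ) : Function.Surjective (res n) := by
  intro S
  refine ⟨⟨FF n S, FF_mem n S⟩, ?_⟩
  funext s
  induction s using Sym2.ind with
  | _ i j =>
    rw [res_apply]
    show FF n S (ev2 n i) (ev2 n j) = S s(i, j)
    have e1 : (ev2 n i).val % 2 = 0 := by rw [ev2_val]; omega
    have e2 : (ev2 n j).val % 2 = 0 := by rw [ev2_val]; omega
    unfold FF F0
    rw [cc_al n _ e1, cc_al n _ e2, cc_al n _ ((be_par n _).2 e1), cc_ev2, cc_ev2, ix_ev2, ix_ev2]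
    ring

/-- DIMF: the dimension of `antiF k` is `a (a+1) / 2`, `a = 2^(k-2)`. -/
theorem hDimF (_hTrc : StTrc) : StDimF := by
  intro k hk
  obtain ⟨n, rfl⟩ : ∃ n, k = n + 2 := ⟨k - 2, by omega⟩
  have h1 : Module.finrank ℂ ↥(antiF (n + 2)) = Module.finrank ℂ (Sym2 (Fin (2 ^ n)) → ℂ) :=
    (LinearEquiv.ofBijective (res n) ⟨res_inj n, res_surj n⟩).finrank_eq
  rw [h1, Module.finrank_fintype_fun_eq_card, Sym2.card, Fintype.card_fin,
    Nat.choose_two_right]
  have h2 : n + 2 - 2 = n := by omega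
  have h3 : 2 ^ n + 1 - 1 = 2 ^ n := Nat.add_sub_cancel _ _
  rw [h2, h3, Nat.mul_div_cancel' ]
  · ring
  · rw [mul_comm]
    exact (Nat.even_mul_succ_self (2 ^ n)).two_dvd

end Pool.Agent.Helper90.CV
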